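import Pool.Agent.Helper29.SR.Props
import Pool.Agent.Helper10.RC.Homs

/-!
# MP_b55b7c_an, packet SR-MatSR: stable rank one passes to matrices
-/

open scoped ENNReal NNReal InnerProductSpace ComplexOrder
open Filter Topology

attribute [-instance] CStarMatrix.instAlgebra CStarMatrix.instModule CStarMatrix.instSMul
  CStarMatrix.instMulAction CStarMatrix.instDistribMulAction

set_option linter.unusedSectionVars false

noncomputable section
namespace RC
universe u
namespace H93SR

section
variable {M : Type u} [CStarAlgebra M] [PartialOrder M] [StarOrderedRing M]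
variable {ν : Type} [Fintype ν] [DecidableEq ν]

/-- The matrix with entry `c` at `(i, i)`. -/
def Ei (i : ν) (c : M) : CStarMatrix ν ν M :=
  CStarMatrix.ofMatrix (Matrix.single i i c)

theorem Ei_apply (i : ν) (c : M) (k l : ν) : Ei i c k l = if i = k ∧ i = l then c else 0 := by
  show Matrix.single i i c k l = _
  rw [Matrix.single_apply]

theorem Ei_mul (i : ν) (x y : M) : Ei i (x * y) = Ei i x * Ei i y := by
  show Matrix.single i i (x * y) = Matrix.single i i x * Matrix.single i i y
  rw [Matrix.single_mul_single_same]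

theorem Ei_add (i : ν) (x y : M) : Ei i (x + y) = Ei i x + Ei i y := by
  show Matrix.single i i (x + y) = Matrix.single i i x + Matrix.single i i y
  rw [Matrix.single_add]

/-- `Ei` as a homomorphism. -/
def EiH (i : ν) : M →⋆ₙₐ[ℂ] CStarMatrix ν ν M where
  toFun := Ei i
  map_smul' c x := by
    ext k l
    show _ = (c • Ei i x) k l
    rw [cm_csmul_apply, Ei_apply, Ei_apply]
    split_ifs <;> simp
  map_zero' := by
    ext k l
    rw [Ei_apply]
    simp
  map_add' := Ei_add i
  map_mul' := Ei_mul i
  map_star' x := by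
    ext k l
    rw [CStarMatrix.star_apply, Ei_apply, Ei_apply]
    by_cases h : i = k ∧ i = l
    · rw [if_pos h, if_pos ⟨h.2, h.1⟩]
    · rw [if_neg h, if_neg (fun h' => h ⟨h'.2, h'.1⟩), star_zero]

theorem norm_Ei_le (i : ν) (x : M) : ‖Ei i x‖ ≤ ‖x‖ :=
  NonUnitalStarAlgHom.norm_apply_le (EiH i) x

theorem Ei_corner (i : ν) (y : CStarMatrix ν ν M) :
    Ei i 1 * y * Ei i 1 = Ei i (y i i) := by
  have h : (Matrix.single i i (1 : M) : Matrix ν ν M) * (CStarMatrix.ofMatrix.symm y : Matrix ν ν M)
      * (Matrix.single i i (1 : M) : Matrix ν ν M) = Matrix.single i i (y i i) := by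
    rw [Matrix.single_mul_mul_single, one_mul, mul_one]
    rfl
  exact h

end

/-- The algebra of the induction step. -/
theorem step {D : Type*} [Ring D] (p e y V c c' k : D) (hp : p * p = p) (he : e * e = e)
    (hpe : p * e = 0) (hep : e * p = 0) (hU : (p * y * p + (1 - p)) * V = 1)
    (hV : V * (p * y * p + (1 - p)) = 1)
    (hc : c = e * (y - y * p * V * p * y) * e) (hc1 : c' * k = e) (hc2 : k * c' = e)
    (hc3 : e * c' = c') (hc4 : c' * e = c') (hk1 : e * k = k) (hk2 : k * e = k) :
    IsUnit ((p + e) * (y + (c' - c)) * (p + e) + (1 - (p + e))) := by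
  have h1 : V * (p * y * p) = p := by
    have : V * (p * y * p + (1 - p)) * p = p := by rw [hV, one_mul]
    have h2 : V * (p * y * p + (1 - p)) * p = V * (p * y * (p * p)) + V * (p - p * p) := by
      noncomm_ring
    rw [h2, hp, sub_self, mul_zero, add_zero] at this
    exact this
  have h2 : (p * y * p) * V = p := by
    have : p * ((p * y * p + (1 - p)) * V) = p := by rw [hU, mul_one]
    have h2 : p * ((p * y * p + (1 - p)) * V) = ((p * p) * y * p) * V + (p - p * p) * V := by
      noncomm_ring
    rw [h2, hp, sub_self, zero_mul, add_zero] at this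
    exact this
  have hpc' : p * c' = 0 := by rw [← hc3, ← mul_assoc, hpe, zero_mul]
  have hc'p : c' * p = 0 := by rw [← hc4, mul_assoc, hep, mul_zero]
  have hpk : p * k = 0 := by rw [← hk1, ← mul_assoc, hpe, zero_mul]
  have hkp : k * p = 0 := by rw [← hk2, mul_assoc, hep, mul_zero]
  -- the factor on the left
  have hL : IsUnit (1 + e * y * p * V * p) := by
    refine ⟨⟨1 + e * y * p * V * p, 1 - e * y * p * V * p, ?_, ?_⟩, rfl⟩
    · have : (1 + e * y * p * V * p) * (1 - e * y * p * V * p)
          = 1 - e * y * p * V * (p * e) * y * p * V * p := by noncomm_ring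
      rw [this, hpe]; simp
    · have : (1 - e * y * p * V * p) * (1 + e * y * p * V * p)
          = 1 - e * y * p * V * (p * e) * y * p * V * p := by noncomm_ring
      rw [this, hpe]; simp
  have hR : IsUnit (1 + p * V * p * y * e) := by
    refine ⟨⟨1 + p * V * p * y * e, 1 - p * V * p * y * e, ?_, ?_⟩, rfl⟩
    · have : (1 + p * V * p * y * e) * (1 - p * V * p * y * e)
          = 1 - p * V * p * y * (e * p) * V * p * y * e := by noncomm_ring
      rw [this, hep]; simp
    · have : (1 - p * V * p * y * e) * (1 + p * V * p * y * e)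
          = 1 - p * V * p * y * (e * p) * V * p * y * e := by noncomm_ring
      rw [this, hep]; simp
  have hUu : IsUnit (p * y * p + (1 - p)) := ⟨⟨_, V, hU, hV⟩, rfl⟩
  have hCu : IsUnit (c' + (1 - e)) := by
    refine ⟨⟨c' + (1 - e), k + (1 - e), ?_, ?_⟩, rfl⟩
    · have : (c' + (1 - e)) * (k + (1 - e)) = c' * k + (c' - c' * e) + (k - e * k)
          + (1 - e - (e - e * e)) := by noncomm_ring
      rw [this, hc1, hc4, hk1, he]; abel
    · have : (k + (1 - e)) * (c' + (1 - e)) = k * c' + (k - k * e) + (c' - e * c')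
          + (1 - e - (e - e * e)) := by noncomm_ring
      rw [this, hc2, hc3, hk2, he]; abel
  have hD : (p * y * p + (1 - p)) * (c' + (1 - e)) = p * y * p + c' + (1 - (p + e)) := by
    have : (p * y * p + (1 - p)) * (c' + (1 - e)) = p * y * (p * c') + (c' - p * c')
      + p * y * p - p * y * (p * e) + (1 - p) - (e - p * e) := by noncomm_ring
    rw [this, hpc', hpe]
    noncomm_ring
  have hDu : IsUnit (p * y * p + c' + (1 - (p + e))) := by
    rw [← hD]; exact hUu.mul hCu
  have key : (p + e) * (y + (c' - c)) * (p + e) + (1 - (p + e))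
      = (1 + e * y * p * V * p) * (p * y * p + c' + (1 - (p + e))) * (1 + p * V * p * y * e) := by
    have e1 : (1 + e * y * p * V * p) * (p * y * p + c' + (1 - (p + e)))
        = (p * y * p + c' + (1 - (p + e))) + e * y * p := by
      have : (1 + e * y * p * V * p) * (p * y * p + c' + (1 - (p + e)))
          = (p * y * p + c' + (1 - (p + e))) + e * y * p * (V * ((p * p) * y * p))
            + e * y * p * V * (p * c') + e * y * p * V * (p - p * p - p * e) := by
        noncomm_ring
      rw [this, hpc', hpe, hp, h1, mul_assoc (e * y), hp]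
      simp
    have e2 : ((p * y * p + c' + (1 - (p + e))) + e * y * p) * (1 + p * V * p * y * e)
        = (p * y * p + c' + (1 - (p + e))) + e * y * p + p * y * e
          + e * y * p * V * p * y * e := by
      have : ((p * y * p + c' + (1 - (p + e))) + e * y * p) * (1 + p * V * p * y * e)
          = (p * y * p + c' + (1 - (p + e))) + e * y * p
            + ((p * y * (p * p)) * V) * p * y * e + (c' * p) * V * p * y * e
            + (p - p * p - e * p) * V * p * y * e + e * y * (p * p) * V * p * y * e := by
        noncomm_ring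
      rw [this, hc'p, hep, hp, h2]
      have h3 : p * p * y * e = p * y * e := by rw [hp]
      rw [h3]
      simp
    rw [e1, e2]
    have hcc : c = e * y * e - e * y * p * V * p * y * e := by
      rw [hc]; noncomm_ring
    have hpc : p * c = 0 := by
      rw [hc, ← mul_assoc, ← mul_assoc, hpe]; simp
    have hcp : c * p = 0 := by
      rw [hc, mul_assoc, hep]; simp
    have hec : e * c = c := by
      rw [hc]
      have : e * (e * (y - y * p * V * p * y) * e) = (e * e) * (y - y * p * V * p * y) * e := by
        noncomm_ring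
      rw [this, he]
    have hce : c * e = c := by
      rw [hc]
      have : (e * (y - y * p * V * p * y) * e) * e = e * (y - y * p * V * p * y) * (e * e) := by
        noncomm_ring
      rw [this, he]
    have e3 : (p + e) * (y + (c' - c)) * (p + e)
        = p * y * p + p * y * e + e * y * p + e * y * e + (p * c' * p + p * c' * e + (e * c') * p
          + (e * c') * e) - (p * c * p + p * c * e + (e * c) * p + (e * c) * e) := by
      noncomm_ring
    rw [e3, hpc', hpc, hec, hc3, hc'p, hcp, hc4, hce]
    conv_lhs => rw [hcc]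
    noncomm_ring
  rw [key]
  exact (hL.mul hDu).mul hR

end H93SR

theorem matSR_93 : MatSRP.{u} := by
  intro M _ _ _ hM ν _ _
  have claim : ∀ s : Finset ν, ∀ (x : CStarMatrix ν ν M) (ε : ℝ), 0 < ε →
      ∃ y : CStarMatrix ν ν M, ‖x - y‖ < ε ∧
        IsUnit ((∑ i ∈ s, H93SR.Ei i (1 : M)) * y * (∑ i ∈ s, H93SR.Ei i (1 : M))
          + (1 - ∑ i ∈ s, H93SR.Ei i (1 : M))) := by
    intro s
    induction s using Finset.induction_on with
    | empty =>
      intro x ε hε
      refine ⟨x, by simpa using hε, ?_⟩
      simp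
    | insert i s hi ih =>
      intro x ε hε
      obtain ⟨y, hy, hu⟩ := ih x (ε / 2) (by positivity)
      have hort : ∀ k l : ν, k ≠ l → H93SR.Ei k (1 : M) * H93SR.Ei l 1 = 0 := by
        intro k l hkl
        have h : (Matrix.single k k (1 : M) : Matrix ν ν M) * (Matrix.single l l (1 : M)) = 0 := by
          rw [Matrix.single_mul_single_of_ne]
          exact hkl
        exact h
      have hee : ∀ k : ν, H93SR.Ei k (1 : M) * H93SR.Ei k 1 = H93SR.Ei k 1 := by
        intro k
        rw [← H93SR.Ei_mul, one_mul]
      obtain ⟨p, hpdef⟩ : ∃ p, p = ∑ i ∈ s, H93SR.Ei i (1 : M) := ⟨_, rfl⟩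
      have hpp : p * p = p := by
        rw [hpdef, Finset.sum_mul]
        apply Finset.sum_congr rfl
        intro k hk
        rw [Finset.mul_sum, Finset.sum_eq_single k (fun l _ hl => hort k l (Ne.symm hl))
          (fun h => absurd hk h)]
        exact hee k
      have hpe : p * H93SR.Ei i 1 = 0 := by
        rw [hpdef, Finset.sum_mul]
        apply Finset.sum_eq_zero
        intro k hk
        exact hort k i (fun h => hi (h ▸ hk))
      have hep : H93SR.Ei i 1 * p = 0 := by
        rw [hpdef, Finset.mul_sum]
        apply Finset.sum_eq_zero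
        intro k hk
        exact hort i k (fun h => hi (h ▸ hk))
      rw [← hpdef] at hu
      obtain ⟨U, hU⟩ := hu
      obtain ⟨V, hV⟩ : ∃ V, V = (↑U⁻¹ : CStarMatrix ν ν M) := ⟨_, rfl⟩
      have h1 : (p * y * p + (1 - p)) * V = 1 := by rw [← hU, hV]; exact U.mul_inv
      have h2 : V * (p * y * p + (1 - p)) = 1 := by rw [← hU, hV]; exact U.inv_mul
      obtain ⟨d', ⟨W, hW⟩, hd'⟩ := hM ((y - y * p * V * p * y) i i) (ε / 2) (by positivity)
      refine ⟨y + (H93SR.Ei i d' - H93SR.Ei i ((y - y * p * V * p * y) i i)), ?_, ?_⟩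
      · have e1 : H93SR.Ei i d' - H93SR.Ei i ((y - y * p * V * p * y) i i)
            = H93SR.Ei i (d' - (y - y * p * V * p * y) i i) := by
          rw [sub_eq_iff_eq_add, ← H93SR.Ei_add, sub_add_cancel]
        have e2 : ‖H93SR.Ei i d' - H93SR.Ei i ((y - y * p * V * p * y) i i)‖ < ε / 2 := by
          rw [e1]
          refine (H93SR.norm_Ei_le _ _).trans_lt ?_
          rw [norm_sub_rev]
          exact hd'
        calc _ = ‖(x - y) - (H93SR.Ei i d' - H93SR.Ei i ((y - y * p * V * p * y) i i))‖ := by
              congr 1; abel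
          _ ≤ ‖x - y‖ + ‖H93SR.Ei i d' - H93SR.Ei i ((y - y * p * V * p * y) i i)‖ :=
              norm_sub_le _ _
          _ < ε / 2 + ε / 2 := by linarith
          _ = ε := by ring
      · rw [Finset.sum_insert hi, ← hpdef, add_comm (H93SR.Ei i (1 : M)) p]
        apply H93SR.step p (H93SR.Ei i 1) y V _ _ (H93SR.Ei i (↑W⁻¹ : M)) hpp (hee i) hpe hep h1 h2
        · rw [H93SR.Ei_corner]
        · rw [← H93SR.Ei_mul, ← hW, Units.mul_inv]
        · rw [← H93SR.Ei_mul, ← hW, Units.inv_mul]
        · rw [← H93SR.Ei_mul, one_mul]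
        · rw [← H93SR.Ei_mul, mul_one]
        · rw [← H93SR.Ei_mul, one_mul]
        · rw [← H93SR.Ei_mul, mul_one]
  intro x ε hε
  obtain ⟨y, hy, hu⟩ := claim Finset.univ x ε hε
  refine ⟨y, ?_, hy⟩
  have hone : (∑ i : ν, H93SR.Ei i (1 : M)) = 1 := by
    ext k l
    have hs : ∀ (f : ν → CStarMatrix ν ν M), (∑ k, f k) k l = ∑ i, f i k l := by
      intro f
      exact Matrix.sum_apply _ _ _ _
    rw [hs, CStarMatrix.one_apply]
    simp only [H93SR.Ei_apply]
    by_cases h : k = l
    · subst h
      simp
    · rw [if_neg h]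
      apply Finset.sum_eq_zero
      intro i _
      rw [if_neg]
      rintro ⟨rfl, h2⟩
      exact h h2
  rw [hone] at hu
  simpa using hu

end RC
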