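import Pool.Agent.Helper75.SR.Goals1

/-!
# Curvature identities of a 3-Sasakian structure in a chart
-/

namespace Pool.Agent.Helper93.SR

open scoped ContDiff Topology
open Pool.Agent.Helper75.SR

set_option synthInstance.maxSize 1000

variable {E : Type} [NormedAddCommGroup E] [NormedSpace ℝ E]

/-- derivative of a differentiable map along a line -/
theorem line {F : Type} [NormedAddCommGroup F] [NormedSpace ℝ F] {f : E → F} {x : E}
    (hf : DifferentiableAt ℝ f x) (b : E) :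
    HasDerivAt (fun s : ℝ => f (x + s • b)) (fderiv ℝ f x b) 0 := by
  have h1 : HasDerivAt (fun s : ℝ => x + s • b) b 0 := by
    simpa using ((hasDerivAt_id (0 : ℝ)).smul_const b).const_add x
  have h2 : HasFDerivAt f (fderiv ℝ f x) (x + (0 : ℝ) • b) := by
    simpa using hf.hasFDerivAt
  exact h2.comp_hasDerivAt (0 : ℝ) h1

theorem line_ev {U : Set E} (hU : IsOpen U) {x : E} (hx : x ∈ U) (b : E) :
    ∀ᶠ s : ℝ in 𝓝 0, x + s • b ∈ U := by
  have h1 : Continuous (fun s : ℝ => x + s • b) := by fun_prop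
  have h2 : (fun s : ℝ => x + s • b) 0 ∈ U := by simpa using hx
  exact h1.continuousAt.eventually (hU.mem_nhds h2)

theorem cd_phi {U : Set E} (S : LocSas E U) {x : E} (hx : x ∈ U) (a : Fin 3) :
    ContDiffAt ℝ ∞ (S.phi a) x := by
  have h1 : ContDiffAt ℝ ∞ (S.xi a) x := (S.xi_smooth a).contDiffAt (S.isOpen.mem_nhds hx)
  have h2 : ContDiffAt ℝ ∞ S.Gam x := S.Gam_smooth.contDiffAt (S.isOpen.mem_nhds hx)
  have h3 : ContDiffAt ℝ ∞ (fderiv ℝ (S.xi a)) x := h1.fderiv_right (by norm_cast)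
  have h4 : ContDiffAt ℝ ∞ (fun y => (S.Gam y).flip) x :=
    ((ContinuousLinearMap.flipₗᵢ ℝ E E E).toContinuousLinearEquiv.contDiff).contDiffAt.comp x h2
  exact (h3.add (h4.clm_apply h1)).neg

theorem symm2 {F : Type} [NormedAddCommGroup F] [NormedSpace ℝ F] {f : E → F} {x : E}
    (hf : ContDiffAt ℝ ∞ f x) (u v : E) :
    fderiv ℝ (fderiv ℝ f) x u v = fderiv ℝ (fderiv ℝ f) x v u := by
  have h2 : minSmoothness ℝ 2 ≤ (∞ : WithTop ℕ∞) := by
    rw [minSmoothness_of_isRCLikeNormedField]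
    show ((2 : ℕ∞) : WithTop ℕ∞) ≤ ((⊤ : ℕ∞) : WithTop ℕ∞)
    exact WithTop.coe_le_coe.2 le_top
  have h := hf.isSymmSndFDerivAt h2
  exact h u v

/-- second derivative along a line -/
theorem line2 {F : Type} [NormedAddCommGroup F] [NormedSpace ℝ F] {f : E → F} {x : E}
    (hf : ContDiffAt ℝ ∞ f x) :
    ∃ SS : E → E → F, (∀ a b, SS a b = SS b a) ∧
      ∀ a b, HasDerivAt (fun s : ℝ => fderiv ℝ f (x + s • b) a) (SS b a) 0 := by
  have h2 : ContDiffAt ℝ ∞ (fderiv ℝ f) x := hf.fderiv_right (by norm_cast)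
  refine ⟨fun b a => fderiv ℝ (fderiv ℝ f) x b a, fun a b => symm2 hf a b, fun a b => ?_⟩
  have h3 := (line (h2.differentiableAt (by simp)) b).clm_apply (hasDerivAt_const (0 : ℝ) a)
  simpa using h3

/-- two maps which agree along a line near `x` have the same derivative there -/
theorem line_eq {F : Type} [NormedAddCommGroup F] [NormedSpace ℝ F] {U : Set E} (hU : IsOpen U)
    {x : E} (hx : x ∈ U) (b : E) {f g : ℝ → F} {f' g' : F}
    (hf : HasDerivAt f f' 0) (hg : HasDerivAt g g' 0)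
    (h : ∀ s : ℝ, x + s • b ∈ U → f s = g s) : f' = g' := by
  have h1 : f =ᶠ[𝓝 0] g := (line_ev hU hx b).mono h
  exact hf.unique (hg.congr_of_eventuallyEq h1)

section

variable {U : Set E} (S : LocSas E U) {x : E} (hx : x ∈ U)

include hx

theorem dg (b : E) :
    HasDerivAt (fun s : ℝ => S.g (x + s • b)) (fderiv ℝ S.g x b) 0 :=
  line ((S.g_smooth.contDiffAt (S.isOpen.mem_nhds hx)).differentiableAt (by simp)) b

theorem ddg : ∃ SS : E → E → E →L[ℝ] E →L[ℝ] ℝ, (∀ a b, SS a b = SS b a) ∧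
      ∀ a b, HasDerivAt (fun s : ℝ => fderiv ℝ S.g (x + s • b) a) (SS b a) 0 :=
  line2 (S.g_smooth.contDiffAt (S.isOpen.mem_nhds hx))

theorem dGam (b : E) :
    HasDerivAt (fun s : ℝ => S.Gam (x + s • b)) (fderiv ℝ S.Gam x b) 0 :=
  line ((S.Gam_smooth.contDiffAt (S.isOpen.mem_nhds hx)).differentiableAt (by simp)) b

theorem dxi (a : Fin 3) (b : E) :
    HasDerivAt (fun s : ℝ => S.xi a (x + s • b)) (fderiv ℝ (S.xi a) x b) 0 :=
  line (((S.xi_smooth a).contDiffAt (S.isOpen.mem_nhds hx)).differentiableAt (by simp)) b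

theorem ddxi (a : Fin 3) (b : E) :
    HasDerivAt (fun s : ℝ => fderiv ℝ (S.xi a) (x + s • b)) (fderiv ℝ (fderiv ℝ (S.xi a)) x b) 0 := by
  have h1 : ContDiffAt ℝ ∞ (S.xi a) x := (S.xi_smooth a).contDiffAt (S.isOpen.mem_nhds hx)
  have h2 : ContDiffAt ℝ ∞ (fderiv ℝ (S.xi a)) x := h1.fderiv_right (by norm_cast)
  exact line (h2.differentiableAt (by simp)) b

theorem dphi (a : Fin 3) (b : E) :
    HasDerivAt (fun s : ℝ => S.phi a (x + s • b)) (fderiv ℝ (S.phi a) x b) 0 :=
  line ((cd_phi S hx a).differentiableAt (by simp)) b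

theorem ddphi (a : Fin 3) (b : E) :
    HasDerivAt (fun s : ℝ => fderiv ℝ (S.phi a) (x + s • b))
      (fderiv ℝ (fderiv ℝ (S.phi a)) x b) 0 := by
  have h2 : ContDiffAt ℝ ∞ (fderiv ℝ (S.phi a)) x := (cd_phi S hx a).fderiv_right (by norm_cast)
  exact line (h2.differentiableAt (by simp)) b

/-- differentiated compatibility -/
theorem dcompat : ∃ SS : E → E → E →L[ℝ] E →L[ℝ] ℝ, (∀ a b, SS a b = SS b a) ∧
    ∀ a b v w : E, SS b a v w =
      (fderiv ℝ S.g x b (S.Gam x a v) w + S.g x (fderiv ℝ S.Gam x b a v) w)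
      + (fderiv ℝ S.g x b v (S.Gam x a w) + S.g x v (fderiv ℝ S.Gam x b a w)) := by
  obtain ⟨SS, hS1, hS2⟩ := ddg S hx
  refine ⟨SS, hS1, fun a b v w => ?_⟩
  have c1 : ∀ c : E, HasDerivAt (fun _ : ℝ => c) (0 : E) 0 := fun c => hasDerivAt_const _ _
  have h1 := ((hS2 a b).clm_apply (c1 v)).clm_apply (c1 w)
  have h2 := ((dg S hx b).clm_apply
    (((dGam S hx b).clm_apply (c1 a)).clm_apply (c1 v))).clm_apply (c1 w)
  have h3 := ((dg S hx b).clm_apply (c1 v)).clm_apply
    (((dGam S hx b).clm_apply (c1 a)).clm_apply (c1 w))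
  have h4 := line_eq S.isOpen hx b h1 (h2.add h3) (fun s hs => by
    simpa using S.compat _ hs a v w)
  simpa using h4

/-- differentiated symmetry -/
theorem dGam_symm (b v w : E) :
    fderiv ℝ S.Gam x b v w = fderiv ℝ S.Gam x b w v := by
  have c1 : ∀ c : E, HasDerivAt (fun _ : ℝ => c) (0 : E) 0 := fun c => hasDerivAt_const _ _
  have h1 := ((dGam S hx b).clm_apply (c1 v)).clm_apply (c1 w)
  have h2 := ((dGam S hx b).clm_apply (c1 w)).clm_apply (c1 v)
  have h4 := line_eq S.isOpen hx b h1 h2 (fun s hs => by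
    simpa using S.Gam_symm _ hs v w)
  simpa using h4

/-- derivative of `phi` in terms of `xi` -/
theorem dphi_eq (a : Fin 3) (u v : E) :
    fderiv ℝ (S.phi a) x u v =
      -(fderiv ℝ (fderiv ℝ (S.xi a)) x u v + (fderiv ℝ S.Gam x u v (S.xi a x)
        + S.Gam x v (fderiv ℝ (S.xi a) x u))) := by
  have c1 : ∀ c : E, HasDerivAt (fun _ : ℝ => c) (0 : E) 0 := fun c => hasDerivAt_const _ _
  have h1 := (dphi S hx a u).clm_apply (c1 v)
  have h2 := (ddxi S hx a u).clm_apply (c1 v)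
  have h3 := ((dGam S hx u).clm_apply (c1 v)).clm_apply (dxi S hx a u)
  have h4 := line_eq S.isOpen hx u h1 (h2.add h3).neg (fun s hs => by
    simp [LocSas.phi, phiOf_apply])
  simpa using h4

/-- differentiated Sasaki identity -/
theorem dsasaki (a : Fin 3) (u v w : E) :
    fderiv ℝ (fderiv ℝ (S.phi a)) x u v w
      + (fderiv ℝ S.Gam x u v (S.phi a x w) + S.Gam x v (fderiv ℝ (S.phi a) x u w))
      - (fderiv ℝ (S.phi a) x u (S.Gam x v w) + S.phi a x (fderiv ℝ S.Gam x u v w))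
      = (S.g x v w • fderiv ℝ (S.xi a) x u + fderiv ℝ S.g x u v w • S.xi a x)
        - (fderiv ℝ S.g x u (S.xi a x) w + S.g x (fderiv ℝ (S.xi a) x u) w) • v := by
  have c1 : ∀ c : E, HasDerivAt (fun _ : ℝ => c) (0 : E) 0 := fun c => hasDerivAt_const _ _
  have h1 := ((ddphi S hx a u).clm_apply (c1 v)).clm_apply (c1 w)
  have h2 := ((dGam S hx u).clm_apply (c1 v)).clm_apply ((dphi S hx a u).clm_apply (c1 w))
  have h3 := (dphi S hx a u).clm_apply (((dGam S hx u).clm_apply (c1 v)).clm_apply (c1 w))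
  have h4 := (((dg S hx u).clm_apply (c1 v)).clm_apply (c1 w)).smul (dxi S hx a u)
  have h5 := (((dg S hx u).clm_apply (dxi S hx a u)).clm_apply (c1 w)).smul (c1 v)
  have h6 := line_eq S.isOpen hx u ((h1.add h2).sub h3) (h4.sub h5) (fun s hs => by
    exact S.sasaki _ hs a v w)
  simpa using h6

theorem R_skew (u v w z : E) :
    S.g x (S.R x u v w) z = - S.g x w (S.R x u v z) := by
  obtain ⟨SS, hS1, hS2⟩ := dcompat S hx
  have h1 := hS2 v u w z
  have h2 := hS2 u v w z
  rw [hS1 u v] at h1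
  rw [h1] at h2
  simp only [S.compat x hx] at h2
  simp only [LocSas.R, map_add, map_sub, add_apply,
    sub_apply]
  linarith

theorem R_bianchi (u v w : E) : S.R x u v w + S.R x v w u + S.R x w u v = 0 := by
  simp only [LocSas.R]
  rw [dGam_symm S hx v w u, dGam_symm S hx w v u, dGam_symm S hx u w v,
    S.Gam_symm x hx w u, S.Gam_symm x hx v u, S.Gam_symm x hx w v]
  abel

omit hx in
theorem R_anti (u v w : E) : S.R x u v w = - S.R x v u w := by
  simp only [LocSas.R]
  abel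

theorem R_pair (u v w z : E) : S.g x (S.R x u v w) z = S.g x (S.R x w z u) v := by
  have h1 : ∀ a b c d, S.g x (S.R x a b c) d = - S.g x (S.R x b a c) d := by
    intro a b c d
    rw [R_anti S a b c]
    simp
  have h2 : ∀ a b c d, S.g x (S.R x a b c) d = - S.g x (S.R x a b d) c := by
    intro a b c d
    rw [R_skew S hx a b c d, S.g_symm x hx c]
  have h3 : ∀ a b c d, S.g x (S.R x a b c) d + S.g x (S.R x b c a) d
      + S.g x (S.R x c a b) d = 0 := by
    intro a b c d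
    have h := congrArg (fun t => S.g x t d) (R_bianchi S hx a b c)
    simpa using h
  linarith [h3 u v w z, h3 v w z u, h3 w z u v, h3 z u v w, h2 u v z w, h2 w z v u, h2 v w z u,
    h2 z u w v, h1 u w z v, h2 w u z v, h1 v z u w, h2 z v u w]

theorem R_xi (a : Fin 3) (u v : E) :
    S.R x u v (S.xi a x) = S.g x (S.xi a x) v • u - S.g x (S.xi a x) u • v := by
  have e1 : fderiv ℝ (S.phi a) x u v + S.Gam x u (S.phi a x v) - S.phi a x (S.Gam x u v)
      = S.g x u v • S.xi a x - S.g x (S.xi a x) v • u := S.sasaki x hx a u v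
  have e2 : fderiv ℝ (S.phi a) x v u + S.Gam x v (S.phi a x u) - S.phi a x (S.Gam x v u)
      = S.g x v u • S.xi a x - S.g x (S.xi a x) u • v := S.sasaki x hx a v u
  have q : ∀ v, S.phi a x v = -(fderiv ℝ (S.xi a) x v + S.Gam x v (S.xi a x)) :=
    fun v => phiOf_apply S.Gam (S.xi a) x v
  have hs : fderiv ℝ (fderiv ℝ (S.xi a)) x v u = fderiv ℝ (fderiv ℝ (S.xi a)) x u v :=
    symm2 ((S.xi_smooth a).contDiffAt (S.isOpen.mem_nhds hx)) v u
  have h : S.R x u v (S.xi a x) =
      (fderiv ℝ (S.phi a) x v u + S.Gam x v (S.phi a x u) - S.phi a x (S.Gam x v u))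
      - (fderiv ℝ (S.phi a) x u v + S.Gam x u (S.phi a x v) - S.phi a x (S.Gam x u v)) := by
    rw [dphi_eq S hx a u v, dphi_eq S hx a v u, q u, q v, hs, S.Gam_symm x hx v u]
    simp only [LocSas.R, map_neg, map_add]
    abel
  rw [h, e1, e2, S.g_symm x hx v u]
  abel

theorem R_phi (a : Fin 3) (u v w : E) :
    S.R x u v (S.phi a x w) - S.phi a x (S.R x u v w) =
      S.g x (S.phi a x u) w • v - S.g x v w • S.phi a x u
        - S.g x (S.phi a x v) w • u + S.g x u w • S.phi a x v := by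
  have e : ∀ v w, fderiv ℝ (S.phi a) x v w =
      S.g x v w • S.xi a x - S.g x (S.xi a x) w • v - S.Gam x v (S.phi a x w)
        + S.phi a x (S.Gam x v w) := by
    intro v w
    have h : fderiv ℝ (S.phi a) x v w + S.Gam x v (S.phi a x w) - S.phi a x (S.Gam x v w)
      = S.g x v w • S.xi a x - S.g x (S.xi a x) w • v := S.sasaki x hx a v w
    rw [← h]
    abel
  have q : ∀ v, fderiv ℝ (S.xi a) x v = -S.phi a x v - S.Gam x v (S.xi a x) := by
    intro v
    have h : S.phi a x v = -(fderiv ℝ (S.xi a) x v + S.Gam x v (S.xi a x)) :=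
      phiOf_apply S.Gam (S.xi a) x v
    rw [h]
    abel
  have hs : fderiv ℝ (fderiv ℝ (S.phi a)) x v u w = fderiv ℝ (fderiv ℝ (S.phi a)) x u v w := by
    rw [symm2 (cd_phi S hx a) v u]
  have d1 := dsasaki S hx a u v w
  have d2 := dsasaki S hx a v u w
  rw [hs] at d2
  have d3 : S.R x u v (S.phi a x w) - S.phi a x (S.R x u v w) =
      ((fderiv ℝ (fderiv ℝ (S.phi a)) x u v w
      + (fderiv ℝ S.Gam x u v (S.phi a x w) + S.Gam x v (fderiv ℝ (S.phi a) x u w))
      - (fderiv ℝ (S.phi a) x u (S.Gam x v w) + S.phi a x (fderiv ℝ S.Gam x u v w)))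
      - (fderiv ℝ (fderiv ℝ (S.phi a)) x u v w
      + (fderiv ℝ S.Gam x v u (S.phi a x w) + S.Gam x u (fderiv ℝ (S.phi a) x v w))
      - (fderiv ℝ (S.phi a) x v (S.Gam x u w) + S.phi a x (fderiv ℝ S.Gam x v u w))))
      - (S.g x u w • S.Gam x v (S.xi a x) - S.g x v w • S.Gam x u (S.xi a x)
        - S.g x (S.xi a x) w • S.Gam x v u + S.g x (S.xi a x) w • S.Gam x u v
        - S.g x u (S.Gam x v w) • S.xi a x + S.g x v (S.Gam x u w) • S.xi a x
        + S.g x (S.xi a x) (S.Gam x v w) • u - S.g x (S.xi a x) (S.Gam x u w) • v) := by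
    rw [e u w, e v w, e u (S.Gam x v w), e v (S.Gam x u w)]
    simp only [LocSas.R, map_neg, map_add, map_sub, map_smul]
    module
  rw [d3, d1, d2, q u, q v, S.Gam_symm x hx v u]
  simp only [S.compat x hx, map_neg, map_add, map_sub, sub_apply,
    neg_apply]
  rw [S.g_symm x hx v (S.Gam x u w)]
  have t1 : S.g x (S.Gam x u v) w = S.g x (S.Gam x v u) w := by
    rw [S.Gam_symm x hx u v]
  have t2 : S.g x (S.Gam x u w) v = S.g x v (S.Gam x u w) := S.g_symm x hx _ _
  rw [t1, t2]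
  module

end

/-- Curvature identities of a 3-Sasakian structure in a chart. -/
theorem gCurv : GCurv := by
  intro E _ _ U S x hx a u v w z
  exact ⟨R_anti S u v w, R_skew S hx u v w z, R_bianchi S hx u v w, R_pair S hx u v w z,
    R_xi S hx a u v, R_phi S hx a u v w⟩

end Pool.Agent.Helper93.SR
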