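import Pool.Agent.Helper7.SR.Goals

/-!
# Project SR (MP_bb782b_co), packet SR-TOP
-/

set_option autoImplicit false

namespace Pool.Agent.Helper93.SR

open Finset Pool.Agent.Helper7.SR
open scoped Classical

theorem dens_of_union {α : Type} (M : Matroid α) (R : Finset α) (k : ℕ) (hR : (R : Set α) = M.E)
    (A : Fin k → Set α) (hA : ∀ i, M.Indep (A i)) (hU : (⋃ i, A i) = M.E) : Dens M R k := by
  refine ⟨hR.le, fun I hI hind => ?_⟩
  have h1 : R.filter (fun x => x ∈ M.closure (I : Set α)) ⊆
      (univ : Finset (Fin k)).biUnion (fun i => R.filter (fun x => x ∈ A i ∧ x ∈ M.closure (I : Set α))) := by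
    intro x hx
    rw [Finset.mem_filter] at hx
    have h2 : x ∈ ⋃ i, A i := by
      rw [hU, ← hR]
      exact hx.1
    obtain ⟨i, hi⟩ := Set.mem_iUnion.1 h2
    rw [Finset.mem_biUnion]
    exact ⟨i, Finset.mem_univ _, Finset.mem_filter.2 ⟨hx.1, hi, hx.2⟩⟩
  have h2 : ∀ i : Fin k, (R.filter (fun x => x ∈ A i ∧ x ∈ M.closure (I : Set α))).card ≤ I.card := by
    intro i
    set S := R.filter (fun x => x ∈ A i ∧ x ∈ M.closure (I : Set α)) with hS
    have h3 : M.Indep (S : Set α) := by
      refine (hA i).subset ?_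
      intro x hx
      rw [hS, Finset.mem_coe, Finset.mem_filter] at hx
      exact hx.2.1
    have h4 : (S : Set α) ⊆ M.closure (I : Set α) := by
      intro x hx
      rw [hS, Finset.mem_coe, Finset.mem_filter] at hx
      exact hx.2.2
    have h5 := h3.encard_le_eRk_of_subset h4
    rw [Matroid.eRk_closure_eq, hind.eRk_eq_encard, Set.encard_coe_eq_coe_finsetCard,
      Set.encard_coe_eq_coe_finsetCard] at h5
    exact_mod_cast h5
  calc (R.filter (fun x => x ∈ M.closure (I : Set α))).card
      ≤ ((univ : Finset (Fin k)).biUnion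
        (fun i => R.filter (fun x => x ∈ A i ∧ x ∈ M.closure (I : Set α)))).card := Finset.card_le_card h1
    _ ≤ ∑ i : Fin k, (R.filter (fun x => x ∈ A i ∧ x ∈ M.closure (I : Set α))).card :=
        Finset.card_biUnion_le
    _ ≤ ∑ _i : Fin k, I.card := Finset.sum_le_sum fun i _ => h2 i
    _ = k * I.card := by simp

/-- The partition matroid. -/
noncomputable def part {α : Type} {k : ℕ} (E : Set α) (f : α → Fin k) : Matroid α :=
  (Matroid.freeOn (Set.univ : Set (Fin k))).comapOn E f

theorem part_indep {α : Type} {k : ℕ} (E : Set α) (f : α → Fin k) (I : Set α) :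
    (part E f).Indep I ↔ Set.InjOn f I ∧ I ⊆ E := by
  unfold part
  rw [Matroid.comapOn_indep_iff, Matroid.freeOn_indep_iff]
  constructor
  · rintro ⟨-, h1, h2⟩
    exact ⟨h1, h2⟩
  · rintro ⟨h1, h2⟩
    exact ⟨Set.subset_univ _, h1, h2⟩

theorem dens_part {α : Type} {k : ℕ} (R : Finset α) (f : α → Fin k)
    (hf : ∀ i, (R.filter (fun x => f x = i)).card ≤ k) : Dens (part (R : Set α) f) R k := by
  refine ⟨le_rfl, fun I hI hind => ?_⟩
  have h1 : R.filter (fun x => x ∈ (part (R : Set α) f).closure (I : Set α)) ⊆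
      I.biUnion (fun y => R.filter (fun x => f x = f y)) := by
    intro x hx
    rw [Finset.mem_filter] at hx
    rw [Finset.mem_biUnion]
    by_cases hxI : x ∈ I
    · exact ⟨x, hxI, Finset.mem_filter.2 ⟨hx.1, rfl⟩⟩
    · have h2 := hx.2
      rw [hind.mem_closure_iff] at h2
      rcases h2 with h2 | h2
      · have h3 := h2.not_indep
        rw [part_indep] at h3
        by_contra hcon
        push Not at hcon
        apply h3
        rw [part_indep] at hind
        refine ⟨?_, ?_⟩
        · rw [Set.injOn_insert (by simpa using hxI)]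
          refine ⟨hind.1, ?_⟩
          rintro ⟨y, hy, hyx⟩
          exact hcon y (by simpa using hy) (Finset.mem_filter.2 ⟨hx.1, hyx.symm⟩)
        · exact Set.insert_subset (by simpa using hx.1) hind.2
      · exact absurd (by simpa using h2) hxI
  calc (R.filter (fun x => x ∈ (part (R : Set α) f).closure (I : Set α))).card
      ≤ (I.biUnion (fun y => R.filter (fun x => f x = f y))).card := Finset.card_le_card h1
    _ ≤ ∑ y ∈ I, (R.filter (fun x => f x = f y)).card := Finset.card_biUnion_le
    _ ≤ ∑ _y ∈ I, k := Finset.sum_le_sum fun y _ => hf (f y)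
    _ = k * I.card := by
      rw [Finset.sum_const, smul_eq_mul, mul_comm]

/-- Packet SR-TOP. -/
theorem s_top (h : Pool.Agent.Helper7.SR.S_FIN.{0}) : Pool.Agent.Helper7.SR.S_TOP := by
  obtain ⟨C, hC, hfin⟩ := h
  refine ⟨16 * C + 2, by positivity, ?_, ?_⟩
  · intro α M N k hk hMN hE hcard hA hB
    obtain ⟨A, hA1, hA2⟩ := hA
    obtain ⟨B, hB1, hB2⟩ := hB
    have hR : (hE.toFinset : Set α) = M.E := hE.coe_toFinset
    have hRc : hE.toFinset.card = M.E.ncard := (Set.ncard_eq_toFinset_card _ hE).symm
    obtain ⟨m, hm, T, hT1, hT2, hT3⟩ := hfin α M N hE.toFinset k hk (by rw [hRc]; exact hcard)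
      (dens_of_union M _ k hR A hA1 hA2) (dens_of_union N _ k (by rw [hR, hMN]) B hB1 (by rw [hB2, hMN]))
    rw [hRc] at hm
    refine ⟨m, fun j => (T j : Set α), ?_, fun j => hT1 j, ?_, ?_⟩
    · refine hm.trans ?_
      have h1 : 0 ≤ (k : ℝ) ^ (3 / 4 : ℝ) * (Real.log M.E.ncard) ^ (1 / 2 : ℝ) + (Real.log M.E.ncard) ^ 2 := by
        have h2 : 0 ≤ Real.log M.E.ncard := Real.log_natCast_nonneg _
        positivity
      nlinarith
    · intro i j hij
      change Disjoint (T i : Set α) (T j : Set α)
      exact_mod_cast hT2 i j hij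
    · rw [← hR, hT3]
      ext x
      simp
  · intro α M k hk hloop hrank hB P hP1 hP2 hP3
    obtain ⟨B, hB1, hB2, hB3⟩ := hB
    have hPfin : ∀ i, (P i).Finite := fun i => by
      rw [← Set.encard_lt_top_iff, hP1 i]
      exact ENat.natCast_lt_top k
    have hE : M.E.Finite := by
      rw [← hP3]
      exact Set.finite_iUnion hPfin
    obtain ⟨R, hR⟩ : ∃ R : Finset α, (R : Set α) = M.E := ⟨hE.toFinset, hE.coe_toFinset⟩
    have hmemR : ∀ x, x ∈ R ↔ ∃ i, x ∈ P i := by
      intro x
      rw [← Finset.mem_coe, hR, ← hP3, Set.mem_iUnion]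
    have hk0 : 0 < k := by omega
    -- the block of a point
    set f : α → Fin k := fun x => if hx : ∃ i, x ∈ P i then hx.choose else ⟨0, hk0⟩ with hf
    have hfP : ∀ x i, x ∈ P i → f x = i := by
      intro x i hx
      have hex : ∃ i, x ∈ P i := ⟨i, hx⟩
      have h1 : f x = hex.choose := by
        rw [hf]
        exact dif_pos hex
      by_contra hne
      rw [h1] at hne
      exact Set.disjoint_left.1 (hP2 hne) hex.choose_spec hx
    have hfib : ∀ i, R.filter (fun x => f x = i) = (hPfin i).toFinset := by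
      intro i
      ext x
      rw [Finset.mem_filter, Set.Finite.mem_toFinset, hmemR x]
      constructor
      · rintro ⟨⟨j, hj⟩, h2⟩
        rw [hfP x j hj] at h2
        rw [← h2]
        exact hj
      · intro hx
        exact ⟨⟨i, hx⟩, hfP x i hx⟩
    have hPc : ∀ i, (hPfin i).toFinset.card = k := by
      intro i
      have h1 := hP1 i
      rw [(hPfin i).encard_eq_coe_toFinset_card] at h1
      exact_mod_cast h1
    have hRc : R.card = k * k := by
      have h1 : R = (univ : Finset (Fin k)).biUnion (fun i => R.filter (fun x => f x = i)) := by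
        ext x
        simp
      rw [h1, Finset.card_biUnion]
      · simp_rw [hfib, hPc]
        simp
      · intro i _ j _ hij
        change Disjoint (R.filter (fun x => f x = i)) (R.filter (fun x => f x = j))
        rw [Finset.disjoint_left]
        intro x hx hx'
        rw [Finset.mem_filter] at hx hx'
        exact hij (hx.2.symm.trans hx'.2)
    have hR2 : 2 ≤ R.card := by
      rw [hRc]
      nlinarith
    obtain ⟨m, hm, T, hT1, hT2, hT3⟩ := hfin α M (part (R : Set α) f) R k (by omega) hR2
      (dens_of_union M R k hR B (fun i => (hB1 i).indep) hB3)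
      (dens_part R f (fun i => by rw [hfib, hPc]))
    -- numbers
    have hkR : (2 : ℝ) ≤ k := by exact_mod_cast hk
    have hkR0 : (0 : ℝ) < k := by linarith
    have hlog : 0 ≤ Real.log k := Real.log_natCast_nonneg _
    have hlog2 : (1 : ℝ) / 4 ≤ Real.log k := by
      have h1 := Real.log_two_gt_d9
      have h2 : Real.log 2 ≤ Real.log k := Real.log_le_log (by norm_num) hkR
      linarith
    have hhalf : (1 : ℝ) / 2 ≤ (Real.log k) ^ (1 / 2 : ℝ) := by
      have h1 : ((1 : ℝ) / 4) ^ (1 / 2 : ℝ) = 1 / 2 := by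
        rw [← Real.sqrt_eq_rpow, show (1 : ℝ) / 4 = (1 / 2) ^ 2 by norm_num,
          Real.sqrt_sq (by norm_num : (0 : ℝ) ≤ 1 / 2)]
      calc (1 : ℝ) / 2 = ((1 : ℝ) / 4) ^ (1 / 2 : ℝ) := h1.symm
        _ ≤ (Real.log k) ^ (1 / 2 : ℝ) := Real.rpow_le_rpow (by norm_num) hlog2 (by norm_num)
    set a : ℝ := (k : ℝ) ^ (3 / 4 : ℝ) * (Real.log k) ^ (1 / 2 : ℝ) with ha
    have ha0 : 0 ≤ a := by positivity
    have hlogR : Real.log R.card = 2 * Real.log k := by
      rw [hRc]
      push_cast
      rw [Real.log_mul hkR0.ne' hkR0.ne']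
      ring
    have h1 : (k : ℝ) ^ (3 / 4 : ℝ) * (Real.log R.card) ^ (1 / 2 : ℝ) ≤ 2 * a := by
      rw [hlogR, Real.mul_rpow (by norm_num) hlog, ha]
      have h2 : (2 : ℝ) ^ (1 / 2 : ℝ) ≤ 2 := by
        calc (2 : ℝ) ^ (1 / 2 : ℝ) ≤ 2 ^ (1 : ℝ) :=
              Real.rpow_le_rpow_of_exponent_le (by norm_num) (by norm_num)
          _ = 2 := Real.rpow_one 2
      calc (k : ℝ) ^ (3 / 4 : ℝ) * (2 ^ (1 / 2 : ℝ) * (Real.log k) ^ (1 / 2 : ℝ))
          ≤ (k : ℝ) ^ (3 / 4 : ℝ) * (2 * (Real.log k) ^ (1 / 2 : ℝ)) := by gcongr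
        _ = _ := by ring
    have h2 : (Real.log R.card) ^ 2 ≤ 12 * a := by
      rw [hlogR]
      have h3 : Real.log k ≤ (k : ℝ) ^ (1 / 2 : ℝ) / (1 / 2) :=
        Real.log_le_rpow_div hkR0.le (by norm_num)
      have h4 : (Real.log k) ^ (3 / 2 : ℝ) ≤ 3 * (k : ℝ) ^ (3 / 4 : ℝ) := by
        calc (Real.log k) ^ (3 / 2 : ℝ) ≤ (2 * (k : ℝ) ^ (1 / 2 : ℝ)) ^ (3 / 2 : ℝ) := by
              refine Real.rpow_le_rpow hlog ?_ (by norm_num)
              linarith
          _ = 2 ^ (3 / 2 : ℝ) * (k : ℝ) ^ (3 / 4 : ℝ) := by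
              rw [Real.mul_rpow (by norm_num) (by positivity), ← Real.rpow_mul hkR0.le]
              norm_num
          _ ≤ 3 * (k : ℝ) ^ (3 / 4 : ℝ) := by
              have h5 : (2 : ℝ) ^ (3 / 2 : ℝ) ≤ 3 := by
                have h6 : ((2 : ℝ) ^ (3 / 2 : ℝ)) ^ 2 = 8 := by
                  rw [← Real.rpow_natCast, ← Real.rpow_mul (by norm_num)]
                  norm_num
                have h7 : 0 ≤ (2 : ℝ) ^ (3 / 2 : ℝ) := by positivity
                nlinarith
              gcongr
      have h5 : (Real.log k) ^ 2 = (Real.log k) ^ (3 / 2 : ℝ) * (Real.log k) ^ (1 / 2 : ℝ) := by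
        rw [← Real.rpow_add (by linarith), ← Real.rpow_natCast]
        norm_num
      have h6 : (Real.log k) ^ 2 ≤ 3 * a := by
        rw [h5, ha]
        calc (Real.log k) ^ (3 / 2 : ℝ) * (Real.log k) ^ (1 / 2 : ℝ)
            ≤ (3 * (k : ℝ) ^ (3 / 4 : ℝ)) * (Real.log k) ^ (1 / 2 : ℝ) := by gcongr
          _ = _ := by ring
      nlinarith
    have hm' : (m : ℝ) ≤ k + 14 * C * a := by
      refine hm.trans ?_
      have : C * ((k : ℝ) ^ (3 / 4 : ℝ) * (Real.log R.card) ^ (1 / 2 : ℝ) + (Real.log R.card) ^ 2) ≤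
          C * (2 * a + 12 * a) := by gcongr
      linarith
    have hTP : ∀ j i, ((T j : Set α) ∩ P i).encard ≤ 1 := by
      intro j i
      rw [Set.encard_le_one_iff]
      intro x y hx hy
      have h3 := (part_indep _ _ _).1 (hT1 j).2
      exact h3.1 hx.1 hy.1 (by rw [hfP x i hx.2, hfP y i hy.2])
    have hTU : (⋃ j, (T j : Set α)) = M.E := by
      rw [← hR, hT3]
      ext x
      simp
    refine ⟨⟨m, fun j => (T j : Set α), ?_, fun j => (hT1 j).1, hTP, ?_, hTU⟩, ?_⟩
    · refine hm'.trans ?_
      have e : (16 * C + 2) * (k : ℝ) ^ (3 / 4 : ℝ) * (Real.log k) ^ (1 / 2 : ℝ) = (16 * C + 2) * a := by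
        rw [ha]
        ring
      rw [e]
      nlinarith [mul_nonneg hC.le ha0]
    · intro i j hij
      change Disjoint (T i : Set α) (T j : Set α)
      exact_mod_cast hT2 i j hij
    · -- the first `k - 1` sets
      set T' : Fin (k - 1) → Set α := fun j => if hj : (j : ℕ) < m then (T ⟨j, hj⟩ : Set α) else ∅ with hT'
      have hT'1 : ∀ (j : Fin (k - 1)) (hj : (j : ℕ) < m), T' j = (T ⟨j, hj⟩ : Set α) := by
        intro j hj
        rw [hT']
        exact dif_pos hj
      have hT'2 : ∀ (j : Fin (k - 1)), ¬ (j : ℕ) < m → T' j = ∅ := by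
        intro j hj
        rw [hT']
        exact dif_neg hj
      refine ⟨T', ?_, ?_, ?_, ?_⟩
      · intro j
        by_cases hj : (j : ℕ) < m
        · rw [hT'1 j hj]
          exact (hT1 _).1
        · rw [hT'2 j hj]
          exact M.empty_indep
      · intro j i
        by_cases hj : (j : ℕ) < m
        · rw [hT'1 j hj]
          exact hTP _ _
        · rw [hT'2 j hj]
          simp
      · intro i j hij
        by_cases hi : (i : ℕ) < m
        · by_cases hj : (j : ℕ) < m
          · rw [hT'1 i hi, hT'1 j hj]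
            have : (⟨i, hi⟩ : Fin m) ≠ ⟨j, hj⟩ := by
              intro h
              exact hij (Fin.ext (by simpa using h))
            exact_mod_cast hT2 _ _ this
          · rw [hT'2 j hj]
            simp
        · rw [hT'2 i hi]
          simp
      · -- the size
        have hTc : ∀ j, (T j).card ≤ k := by
          intro j
          have h3 := (hT1 j).1.encard_le_eRank
          rw [hrank, Set.encard_coe_eq_coe_finsetCard] at h3
          exact_mod_cast h3
        set S : Finset (Fin m) := (univ : Finset (Fin m)).filter (fun j : Fin m => ¬ (j : ℕ) < k - 1) with hS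
        have hSc : S.card ≤ m - (k - 1) := by
          have h3 : S.image (fun j : Fin m => (j : ℕ)) ⊆ Finset.Ico (k - 1) m := by
            intro x hx
            rw [Finset.mem_image] at hx
            obtain ⟨j, hj, rfl⟩ := hx
            rw [hS, Finset.mem_filter] at hj
            rw [Finset.mem_Ico]
            exact ⟨by omega, j.2⟩
          have h4 := Finset.card_le_card h3
          rw [Finset.card_image_of_injective _ Fin.val_injective, Nat.card_Ico] at h4
          exact h4
        have hTfin : (⋃ j, T' j).Finite := by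
          refine Set.finite_iUnion fun j => ?_
          by_cases hj : (j : ℕ) < m
          · rw [hT'1 j hj]
            exact Finset.finite_toSet _
          · rw [hT'2 j hj]
            exact Set.finite_empty
        have hcov : R ⊆ hTfin.toFinset ∪ S.biUnion T := by
          intro x hx
          rw [hT3, Finset.mem_biUnion] at hx
          obtain ⟨j, -, hj⟩ := hx
          rw [Finset.mem_union, Set.Finite.mem_toFinset, Finset.mem_biUnion]
          by_cases hjk : (j : ℕ) < k - 1
          · left
            rw [Set.mem_iUnion]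
            refine ⟨⟨j, hjk⟩, ?_⟩
            rw [hT'1 ⟨j, hjk⟩ j.2]
            exact hj
          · right
            exact ⟨j, Finset.mem_filter.2 ⟨Finset.mem_univ _, hjk⟩, hj⟩
        have hcount : k * k ≤ (⋃ j, T' j).ncard + (m - (k - 1)) * k := by
          have h3 := Finset.card_le_card hcov
          rw [hRc] at h3
          refine h3.trans ((Finset.card_union_le _ _).trans ?_)
          rw [Set.ncard_eq_toFinset_card _ hTfin]
          refine Nat.add_le_add_left ?_ _
          calc (S.biUnion T).card ≤ ∑ j ∈ S, (T j).card := Finset.card_biUnion_le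
            _ ≤ ∑ _j ∈ S, k := Finset.sum_le_sum fun j _ => hTc j
            _ = S.card * k := by rw [Finset.sum_const, smul_eq_mul]
            _ ≤ (m - (k - 1)) * k := Nat.mul_le_mul_right _ hSc
        have h3 : ((m - (k - 1) : ℕ) : ℝ) ≤ 14 * C * a + 1 := by
          rcases le_total (k - 1) m with h4 | h4
          · rw [Nat.cast_sub h4, Nat.cast_sub (by omega)]
            push_cast
            linarith
          · rw [Nat.sub_eq_zero_of_le h4]
            push_cast
            positivity
        have h4 : ((k * k : ℕ) : ℝ) ≤ (((⋃ j, T' j).ncard + (m - (k - 1)) * k : ℕ) : ℝ) := by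
          exact_mod_cast hcount
        have h5 : (k : ℝ) ^ (7 / 4 : ℝ) = k * (k : ℝ) ^ (3 / 4 : ℝ) := by
          rw [show (7 / 4 : ℝ) = 1 + 3 / 4 by norm_num, Real.rpow_add hkR0, Real.rpow_one]
        have h6 : (k : ℝ) ^ (7 / 4 : ℝ) * (Real.log k) ^ (1 / 2 : ℝ) = k * a := by
          rw [h5, ha]
          ring
        have h7 : 1 ≤ 2 * a := by
          have h8 : (1 : ℝ) ≤ (k : ℝ) ^ (3 / 4 : ℝ) := Real.one_le_rpow (by linarith) (by norm_num)
          rw [ha]
          nlinarith
        have h9 : ((m - (k - 1) : ℕ) : ℝ) * k ≤ (14 * C * a + 2 * a) * k := by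
          refine mul_le_mul_of_nonneg_right ?_ hkR0.le
          linarith
        push_cast at h4
        rw [mul_assoc, h6]
        have h10 : (16 * C + 2) * (k * a) = (14 * C * a + 2 * a) * k + 2 * C * a * k := by ring
        have h11 : 0 ≤ 2 * C * a * k := by positivity
        rw [h10]
        have h12 : (k : ℝ) ^ 2 = k * k := sq _
        rw [h12]
        linarith

end Pool.Agent.Helper93.SR
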